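import Pool.Agent.Helper937.Spl0
import Pool.Agent.Results.MP_174cbb_lc.SingularFailure

/-!
The coded form of the Baire category hypothesis of `SingularFailure`.
-/

set_option autoImplicit false

namespace Pool.Agent.TH764.Clone

open Cardinal Pool.Agent.Helper937.Spl Pool.Agent.Results.MP_174cbb_lc.Regular

/-- fewer than `2 ^ #X` dense sets of finite partial functions are met by a function -/
def Meets (X : Type) : Prop :=
  ∀ Θ : Type, #Θ < 2 ^ #X → ∀ D : Θ → Fn X → Prop, (∀ ξ q, ∃ q', ext q q' ∧ D ξ q') →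
    ∃ g : X → ℕ, ∀ ξ, ∃ q, D ξ q ∧ ∀ x n, (x, n) ∈ q.1 → g x = n

/-- the basic open set of a condition -/
def cyl {X : Type} (q : Fn X) : Set (X → ℕ) := {g | ∀ x n, (x, n) ∈ q.1 → g x = n}

/-- the condition given by the restriction of `g` to the finite set `F` -/
noncomputable def ofFun {X : Type} (g : X → ℕ) (F : Finset X) : Fn X := by
  classical
  exact ⟨F.image fun x => (x, g x), by
    intro x a b ha hb
    rw [Finset.mem_image] at ha hb
    obtain ⟨y, _, hy⟩ := ha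
    obtain ⟨z, _, hz⟩ := hb
    rw [Prod.mk.injEq] at hy hz
    rw [← hy.2, ← hz.2, hy.1, hz.1]⟩

theorem mem_ofFun {X : Type} (g : X → ℕ) (F : Finset X) (x : X) (n : ℕ) :
    (x, n) ∈ (ofFun g F).1 ↔ x ∈ F ∧ g x = n := by
  classical
  unfold ofFun
  rw [Finset.mem_image]
  constructor
  · rintro ⟨y, hy, he⟩
    rw [Prod.mk.injEq] at he
    obtain ⟨rfl, rfl⟩ := he
    exact ⟨hy, rfl⟩
  · rintro ⟨h1, rfl⟩
    exact ⟨x, h1, rfl⟩

theorem isOpen_cyl {X : Type} (q : Fn X) : IsOpen (cyl q) := by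
  have h1 : cyl q = ⋂ p ∈ q.1, {g : X → ℕ | g p.1 = p.2} := by
    ext g
    simp only [cyl, Set.mem_ofPred_eq, Set.mem_iInter, Prod.forall]
  rw [h1]
  refine isOpen_biInter_finset fun p _ => ?_
  have h2 : Continuous (fun g : X → ℕ => g p.1) := continuous_apply p.1
  exact (isOpen_discrete (α := ℕ) {p.2}).preimage h2

theorem exists_total {X : Type} (q : Fn X) : ∃ g : X → ℕ, g ∈ cyl q := by
  classical
  refine ⟨fun x => if h : ∃ n, (x, n) ∈ q.1 then h.choose else 0, fun x n hn => ?_⟩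
  have h : ∃ n, (x, n) ∈ q.1 := ⟨n, hn⟩
  simp only [dif_pos h]
  exact q.2 x _ _ h.choose_spec hn

theorem exists_cyl {X : Type} {U : Set (X → ℕ)} (hU : IsOpen U) {g : X → ℕ} (hg : g ∈ U) :
    ∃ F : Finset X, cyl (ofFun g F) ⊆ U := by
  classical
  obtain ⟨F, u, hu, hsub⟩ := isOpen_pi_iff.1 hU g hg
  refine ⟨F, fun f hf => hsub ?_⟩
  intro x hx
  have h1 : f x = g x := hf x (g x) ((mem_ofFun g F x (g x)).2 ⟨hx, rfl⟩)
  rw [h1]
  exact (hu x hx).2

theorem not_duallyAtomic_of_meets (X : Type) [Infinite X] (h : Meets X) : ¬ DuallyAtomic X := by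
  classical
  refine Pool.Agent.Results.MP_174cbb_lc.SingularFailure.result X ?_
  intro 𝓓 hcard hD
  obtain ⟨g, hg⟩ := h 𝓓 hcard (fun ξ q => cyl q ⊆ ξ.1) (by
    rintro ⟨U, hU⟩ q
    obtain ⟨hUo, hUd⟩ := hD U hU
    obtain ⟨g0, hg0⟩ := exists_total q
    obtain ⟨f, hf1, hf2⟩ := hUd.inter_open_nonempty (cyl q) (isOpen_cyl q) ⟨g0, hg0⟩
    obtain ⟨F, hF⟩ := exists_cyl (hUo.inter (isOpen_cyl q)) ⟨hf2, hf1⟩
    refine ⟨ofFun f (F ∪ q.1.image Prod.fst), ?_, ?_⟩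
    · rintro ⟨x, n⟩ hx
      rw [mem_ofFun]
      exact ⟨Finset.mem_union_right _ (Finset.mem_image.2 ⟨(x, n), hx, rfl⟩), hf1 x n hx⟩
    · intro k hk
      refine (hF ?_).1
      intro x n hx
      rw [mem_ofFun] at hx
      exact hk x n ((mem_ofFun _ _ _ _).2 ⟨Finset.mem_union_left _ hx.1, hx.2⟩))
  refine ⟨g, ?_⟩
  rintro U hU
  obtain ⟨q, hq, hgq⟩ := hg ⟨U, hU⟩
  exact hq hgq

end Pool.Agent.TH764.Clone
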