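import Pool.Agent.Helper937.Spl2

/-!
Adding Cohen functions from `X` to `ℕ`: the poset of finite partial functions from `Λ × X` to `ℕ`
forces the Baire category theorem for fewer than `#Λ` dense subsets of `Fn X`.
-/

set_option autoImplicit false

namespace Pool.Agent.TH764.Clone

open Cardinal Pool.Agent.Helper937.Spl

variable {X Λ : Type}

theorem card_lt (_hX : Infinite X) (h2 : 2 ≤ #Λ) (h : #Λ ^ #X = #Λ) : #X < #Λ := by
  calc #X < 2 ^ #X := cantor _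
    _ ≤ #Λ ^ #X := power_le_power_right h2
    _ = #Λ := h

theorem mk_cond_le (hX : Infinite X) (h2 : 2 ≤ #Λ) (h : #Λ ^ #X = #Λ) :
    #(Fn (Λ × X)) ≤ #Λ := by
  have hlt := card_lt hX h2 h
  have hX0 : ℵ₀ ≤ #X := Cardinal.infinite_iff.1 hX
  have hΛ : ℵ₀ ≤ #Λ := hX0.trans hlt.le
  have : Infinite Λ := Cardinal.infinite_iff.2 hΛ
  have h1 : #(Fn (Λ × X)) ≤ #(Finset ((Λ × X) × ℕ)) := Cardinal.mk_subtype_le _
  refine h1.trans ?_
  rw [Cardinal.mk_finset_of_infinite]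
  simp only [Cardinal.mk_prod, Cardinal.lift_uzero, Cardinal.mk_nat]
  calc #Λ * #X * ℵ₀ ≤ #Λ * #Λ * #Λ := mul_le_mul' (mul_le_mul' le_rfl hlt.le) hΛ
    _ = #Λ := by rw [Cardinal.mul_eq_self hΛ, Cardinal.mul_eq_self hΛ]

theorem few_subsets (hX : Infinite X) (h2 : 2 ≤ #Λ) (h : #Λ ^ #X = #Λ) :
    ∃ N : Λ → X → Set (Fn (Λ × X)), ∀ Y : X → Set (Fn (Λ × X)), ∃ α, ∀ x r,
      Forces (N α x) r ↔ Forces (Y x) r := by
  have hX0 : ℵ₀ ≤ #X := Cardinal.infinite_iff.1 hX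
  have hΛ : ℵ₀ ≤ #Λ := hX0.trans (card_lt hX h2 h).le
  obtain ⟨N, hN⟩ := Pool.Agent.Helper937.Eta.nice_names (P := Fn (Λ × X)) ext ext_refl
    (fun a b c h1 h2 => ext_trans h1 h2) (fn_ccc _) (#Λ) (mk_cond_le hX h2 h) X
    (by rw [Cardinal.aleph0_mul_eq hX0, h]) hΛ
  have he : #((#Λ).ord.ToType) = #Λ := by rw [Cardinal.mk_ord_toType]
  obtain ⟨e⟩ := Cardinal.eq.1 he
  refine ⟨fun α => N (e.symm α), fun Y => ?_⟩
  obtain ⟨ξ, hξ⟩ := hN Y
  refine ⟨e ξ, fun x r => ?_⟩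
  simp only [Equiv.symm_apply_apply]
  exact hξ x r

/-- the name of the `α`-th generic function -/
def gen (α : Λ) (x : X) (n : ℕ) : Set (Fn (Λ × X)) := {p | ((α, x), n) ∈ p.1}

theorem extend {I : Type} (s : Fn I) (c : I) (n : ℕ) (hc : ∀ m, (c, m) ∉ s.1) :
    ∃ t : Fn I, ext s t ∧ (c, n) ∈ t.1 :=
  ⟨flip s c n, ext_flip s s c n (ext_refl s) hc, mem_flip s c n⟩

theorem mem_flip_or {I : Type} (t : Fn I) (c : I) (i : ℕ) (d : I) (n : ℕ)
    (h : (d, n) ∈ (Pool.Agent.Helper937.Spl.flip t c i).1) : (d, n) ∈ t.1 ∨ d = c := by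
  classical
  unfold Pool.Agent.Helper937.Spl.flip at h
  simp only [Finset.mem_insert, Finset.mem_filter, Prod.mk.injEq] at h
  rcases h with h | h
  · exact Or.inr h.1
  · exact Or.inl h.1

theorem gen_isFun (α : Λ) (r : Fn (Λ × X)) : IsFun (gen α) r := by
  refine ⟨?_, ?_⟩
  · intro x s _
    by_cases hc : ∃ n, ((α, x), n) ∈ s.1
    · obtain ⟨n, hn⟩ := hc
      exact ⟨s, ext_refl s, n, Forces.of_mem hn⟩
    · push Not at hc
      obtain ⟨t, ht, hm⟩ := extend s (α, x) 0 hc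
      exact ⟨t, ht, 0, Forces.of_mem hm⟩
  · intro x a b t _ h1 h2
    obtain ⟨u1, hu1, p, hp, hpu⟩ := h1 t (ext_refl t)
    obtain ⟨u2, hu2, q, hq, hqu⟩ := h2 u1 hu1
    exact u2.2 (α, x) a b (hu2 (hpu hp)) (hqu hq)

theorem many_subsets [Nonempty X] : ∃ N : Λ → X → Set (Fn (Λ × X)), ∀ α β, α ≠ β → ∀ r,
    Infinite X → ∃ s, ext r s ∧ ∃ x, Forces (N α x) s ∧ ∀ t, ext s t → ¬ Forces (N β x) t := by
  classical
  refine ⟨fun α x => gen α x 0, fun α β hαβ r hX => ?_⟩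
  -- an x not used in r
  obtain ⟨x, hx⟩ : ∃ x : X, ∀ γ n, ((γ, x), n) ∉ r.1 := by
    by_contra hcon
    push Not at hcon
    have hfin : (Set.univ : Set X).Finite := by
      refine (r.1.image fun p => p.1.2).finite_toSet.subset ?_
      intro x _
      obtain ⟨γ, n, h⟩ := hcon x
      exact Finset.mem_coe.2 (Finset.mem_image.2 ⟨((γ, x), n), h, rfl⟩)
    exact Set.infinite_univ hfin
  obtain ⟨s1, hs1, hm1⟩ := extend r (α, x) 0 (fun m => hx α m)
  have hβ : ∀ m, ((β, x), m) ∉ (flip r (α, x) 0).1 := by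
    intro m hm
    have : ((β, x), m) ∈ r.1 ∨ (β, x) = (α, x) := mem_flip_or r (α, x) 0 (β, x) m hm
    rcases this with h | h
    · exact hx β m h
    · exact hαβ (congrArg Prod.fst h).symm
  obtain ⟨s, hs, hm⟩ := extend (flip r (α, x) 0) (β, x) 1 hβ
  refine ⟨s, ext_trans (ext_flip r r _ 0 (ext_refl r) (fun m => hx α m)) hs, x,
    Forces.of_mem (hs (mem_flip r _ 0)), ?_⟩
  intro t hst hF
  obtain ⟨u, hu, p, hp, hpu⟩ := hF t (ext_refl t)
  have e1 : ((β, x), 1) ∈ u.1 := hu (hst hm)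
  have e2 : ((β, x), 0) ∈ u.1 := hpu hp
  exact absurd (u.2 _ _ _ e1 e2) (by norm_num)

/-- place a condition on `X` at the block `α` of `t`, erasing the old block -/
noncomputable def place (t : Fn (Λ × X)) (α : Λ) (q : Fn X) : Fn (Λ × X) := by
  classical
  exact ⟨(t.1.filter fun p => p.1.1 ≠ α) ∪ q.1.image fun p => ((α, p.1), p.2), by
    intro c a b ha hb
    rw [Finset.mem_union, Finset.mem_filter, Finset.mem_image] at ha hb
    rcases ha with ⟨ha, ha'⟩ | ⟨pa, hpa, hea⟩ <;> rcases hb with ⟨hb, hb'⟩ | ⟨pb, hpb, heb⟩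
    · exact t.2 c a b ha hb
    · rw [Prod.mk.injEq] at heb
      exact absurd (congrArg Prod.fst heb.1).symm ha'
    · rw [Prod.mk.injEq] at hea
      exact absurd (congrArg Prod.fst hea.1).symm hb'
    · rw [Prod.mk.injEq] at hea heb
      have h1 : pa.1 = pb.1 := congrArg Prod.snd (hea.1.trans heb.1.symm)
      have h2 : (pa.1, pa.2) ∈ q.1 := hpa
      have h3 : (pa.1, pb.2) ∈ q.1 := by rw [h1]; exact hpb
      rw [← hea.2, ← heb.2]
      exact q.2 pa.1 pa.2 pb.2 h2 h3⟩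

theorem mem_place (t : Fn (Λ × X)) (α : Λ) (q : Fn X) (c : Λ × X) (n : ℕ) :
    (c, n) ∈ (place t α q).1 ↔ ((c, n) ∈ t.1 ∧ c.1 ≠ α) ∨ (c.1 = α ∧ (c.2, n) ∈ q.1) := by
  classical
  unfold place
  rw [Finset.mem_union, Finset.mem_filter, Finset.mem_image]
  constructor
  · rintro (h | ⟨p, hp, he⟩)
    · exact Or.inl h
    · rw [Prod.mk.injEq] at he
      right
      refine ⟨(congrArg Prod.fst he.1).symm, ?_⟩
      have h1 : p.1 = c.2 := congrArg Prod.snd he.1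
      rw [← h1, ← he.2]
      exact hp
  · rintro (h | ⟨h1, h2⟩)
    · exact Or.inl h
    · right
      refine ⟨(c.2, n), h2, ?_⟩
      rw [← h1]

/-- the block `α` of `s` -/
noncomputable def block (s : Fn (Λ × X)) (α : Λ) : Fn X := by
  classical
  exact ⟨(s.1.filter fun p => p.1.1 = α).image fun p => (p.1.2, p.2), by
    intro x a b ha hb
    rw [Finset.mem_image] at ha hb
    obtain ⟨p, hp, hep⟩ := ha
    obtain ⟨p', hp', hep'⟩ := hb
    rw [Finset.mem_filter] at hp hp'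
    rw [Prod.mk.injEq] at hep hep'
    have h1 : p.1 = p'.1 := Prod.ext (hp.2.trans hp'.2.symm) (hep.1.trans hep'.1.symm)
    have h2 : (p.1, p.2) ∈ s.1 := hp.1
    have h3 : (p.1, p'.2) ∈ s.1 := by rw [h1]; exact hp'.1
    rw [← hep.2, ← hep'.2]
    exact s.2 p.1 p.2 p'.2 h2 h3⟩

theorem mem_block (s : Fn (Λ × X)) (α : Λ) (x : X) (n : ℕ) :
    (x, n) ∈ (block s α).1 ↔ ((α, x), n) ∈ s.1 := by
  classical
  unfold block
  rw [Finset.mem_image]
  constructor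
  · rintro ⟨p, hp, he⟩
    rw [Finset.mem_filter] at hp
    rw [Prod.mk.injEq] at he
    have h1 : p = ((α, x), n) := Prod.ext (Prod.ext hp.2 he.1) he.2
    rw [← h1]
    exact hp.1
  · intro h
    exact ⟨((α, x), n), Finset.mem_filter.2 ⟨h, rfl⟩, rfl⟩

/-- **The generic functions are Cohen over any fewer than `#Λ` names of dense sets.** -/
theorem forces_baire (hX : Infinite X) (h2 : 2 ≤ #Λ) (h : #Λ ^ #X = #Λ) (Θ : Type)
    (hΘ : #Θ < #Λ) (D : Θ → Fn X → Set (Fn (Λ × X))) (r : Fn (Λ × X))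
    (hD : ∀ ξ q s, ext r s → ∃ t, ext s t ∧ ∃ q', ext q q' ∧ Forces (D ξ q') t) :
    ∃ g : X → ℕ → Set (Fn (Λ × X)), IsFun g r ∧
      ∀ ξ s, ext r s → ∃ t, ext s t ∧ ∃ q, Forces (D ξ q) t ∧
        ∀ x n, (x, n) ∈ q.1 → Forces (g x n) t := by
  classical
  have hlt := card_lt hX h2 h
  have hX0 : ℵ₀ ≤ #X := Cardinal.infinite_iff.1 hX
  have hΛ : ℵ₀ ≤ #Λ := hX0.trans hlt.le
  choose S hS1 hS2 using support (Λ × X)
  -- the union of the supports
  let W : Set Λ := ⋃ ξ : Θ, ⋃ q : Fn X, Prod.fst '' (S (D ξ q))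
  have hFn : #(Fn X) ≤ #X := by
    have h1 : #(Fn X) ≤ #(Finset (X × ℕ)) := Cardinal.mk_subtype_le _
    refine h1.trans ?_
    rw [Cardinal.mk_finset_of_infinite]
    simp only [Cardinal.mk_prod, Cardinal.lift_uzero, Cardinal.mk_nat]
    exact (Cardinal.mul_aleph0_eq hX0).le
  have hW : #W < #Λ := by
    have h1 : W = ⋃ p : Θ × Fn X, Prod.fst '' (S (D p.1 p.2)) := by
      ext a
      simp only [W, Set.mem_iUnion, Prod.exists]
    rw [h1]
    have h3 : #(⋃ p : Θ × Fn X, Prod.fst '' (S (D p.1 p.2)) : Set Λ) ≤ #(Θ × Fn X) * ℵ₀ := by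
      refine (Cardinal.mk_iUnion_le_sum_mk).trans ?_
      calc Cardinal.sum (fun p : Θ × Fn X => #(Prod.fst '' (S (D p.1 p.2)) : Set Λ))
          ≤ Cardinal.sum (fun _ : Θ × Fn X => ℵ₀) := by
            refine Cardinal.sum_le_sum _ _ fun p => ?_
            rw [Cardinal.mk_le_aleph0_iff]
            exact ((hS1 (D p.1 p.2)).image _).to_subtype
        _ = #(Θ × Fn X) * ℵ₀ := by simp
    refine h3.trans_lt ?_
    have h4 : #(Θ × Fn X) < #Λ := by
      rw [Cardinal.mk_prod, Cardinal.lift_uzero, Cardinal.lift_uzero]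
      exact Cardinal.mul_lt_of_lt hΛ hΘ (hFn.trans_lt hlt)
    exact Cardinal.mul_lt_of_lt hΛ h4 (hX0.trans_lt hlt)
  obtain ⟨α, hα⟩ : ∃ α : Λ, α ∉ W := by
    by_contra hcon
    push Not at hcon
    have : W = Set.univ := Set.eq_univ_of_forall hcon
    rw [this, Cardinal.mk_univ] at hW
    exact lt_irrefl _ hW
  refine ⟨gen α, gen_isFun α r, fun ξ s hs => ?_⟩
  obtain ⟨t, ht, q, hq, hF⟩ := hD ξ (block s α) s hs
  refine ⟨place t α q, ?_, q, ?_, ?_⟩
  · rintro ⟨c, n⟩ hc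
    rw [mem_place]
    by_cases hcα : c.1 = α
    · right
      refine ⟨hcα, hq ?_⟩
      rw [mem_block, ← hcα]
      exact hc
    · exact Or.inl ⟨ht hc, hcα⟩
  · refine hS2 (D ξ q) t _ ?_ hF
    intro c hc n hn
    rw [mem_place]
    left
    refine ⟨hn, ?_⟩
    rintro rfl
    apply hα
    simp only [W, Set.mem_iUnion]
    exact ⟨ξ, q, c, hc, rfl⟩
  · intro x n hxn
    refine Forces.of_mem ?_
    change ((α, x), n) ∈ (place t α q).1
    rw [mem_place]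
    exact Or.inr ⟨rfl, hxn⟩

end Pool.Agent.TH764.Clone
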